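import Pool.Agent.H28.Chord

set_option autoImplicit false

namespace Pool.Agent.Results.MP_77abd0_co.RealRoots

open Finset Relation Pool.Agent.H28.Chord Classical

variable {V : Type}

/-- at least `l + 1` vertices, connected after deleting fewer than `l` vertices -/
def LConnected [Fintype V] (G : SimpleGraph V) (l : ℕ) : Prop :=
  l + 1 ≤ Fintype.card V ∧ ∀ X : Finset V, X.card < l → (G.induce {v | v ∉ X}).Connected

/-- the value at `z` of the clique polynomial -/
noncomputable def cliqueVal [Fintype V] (G : SimpleGraph V) (z : ℂ) : ℂ :=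
  ∑ k ∈ range (Fintype.card V + 1), (G.cliqueFinset k).card * z ^ k

noncomputable def P (G : SimpleGraph V) (S : Finset V) (z : ℂ) : ℂ :=
  ∑ s ∈ S.powerset.filter fun s : Finset V => G.IsClique s, z ^ s.card

def Conn (G : SimpleGraph V) (l : ℕ) (S : Finset V) : Prop :=
  ∀ X : Finset V, X.card < l → ∀ a ∈ S, a ∉ X → ∀ b ∈ S, b ∉ X →
    ReflTransGen (fun a b => G.Adj a b ∧ b ∈ S ∧ b ∉ X) a b

lemma pow_sum (S : Finset V) (z : ℂ) : ∑ s ∈ S.powerset, z ^ s.card = (1 + z) ^ S.card := by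
  rw [← prod_const, prod_one_add]; simp

lemma deg {G : SimpleGraph V} {l : ℕ} {S : Finset V} (h : Conn G l S) (hS : l + 1 ≤ S.card)
    {v : V} (hv : v ∈ S) : l ≤ (S.filter (G.Adj v)).card := by
  by_contra! h1
  obtain ⟨b, hb, h2⟩ := exists_mem_notMem_of_card_lt_card
    ((card_insert_le v (S.filter (G.Adj v))).trans_lt (show _ < S.card by omega))
  rw [mem_insert, not_or] at h2
  rcases (h _ h1 v hv (by simp) b hb h2.2).cases_head with h3 | ⟨c, h3, -⟩
  · exact h2.1 h3.symm
  · exact h3.2.2 (mem_filter.2 ⟨h3.2.1, h3.1⟩)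

lemma conn_erase {G : SimpleGraph V} {l : ℕ} {S : Finset V} (h : Conn G l S) {v : V}
    (hv : Simp G S v) : Conn G l (S.erase v) := by
  intro X hX a ha haX b hb hbX
  rw [mem_erase] at ha hb
  have : ∀ b, ReflTransGen (fun a b => G.Adj a b ∧ b ∈ S ∧ b ∉ X) a b → ∃ c ∈ S,
      ReflTransGen (fun a b => G.Adj a b ∧ b ∈ S.erase v ∧ b ∉ X) a c ∧
        (b = c ∨ (b = v ∧ G.Adj v c)) := by
    intro b hb
    induction hb with
    | refl => exact ⟨a, ha.2, .refl, .inl rfl⟩
    | @tail b d _ h1 ih =>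
      obtain ⟨c, hc, h2, h3⟩ := ih
      by_cases h4 : d = v
      · rcases h3 with rfl | ⟨rfl, h3⟩
        · exact ⟨b, hc, h2, .inr ⟨h4, h4 ▸ h1.1.symm⟩⟩
        · exact absurd h4 h1.1.ne'
      by_cases h5 : c = d
      · exact ⟨c, hc, h2, .inl h5.symm⟩
      refine ⟨d, h1.2.1, h2.tail ⟨?_, mem_erase.2 ⟨h4, h1.2.1⟩, h1.2.2⟩, .inl rfl⟩
      rcases h3 with rfl | ⟨rfl, h3⟩
      · exact h1.1
      · exact hv c hc d h1.2.1 h3 h1.1 h5
  obtain ⟨c, -, h1, rfl | h2⟩ := this b (h X hX a ha.2 haX b hb.2 hbX)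
  · exact h1
  · exact absurd h2.1 hb.1

lemma P_erase {G : SimpleGraph V} {S : Finset V} {v : V} (hv : v ∈ S) (h : Simp G S v) (z : ℂ) :
    P G S z = P G (S.erase v) z + z * (1 + z) ^ (S.filter (G.Adj v)).card := by
  conv_lhs => rw [← insert_erase hv]
  simp only [P, sum_filter]
  rw [sum_powerset_insert (notMem_erase v S), ← pow_sum, mul_sum, ← sum_filter fun s =>
    G.IsClique (insert v s : Finset V)]
  congr 1
  refine sum_congr ?_ fun s hs => ?_
  · ext s
    simp only [mem_filter, mem_powerset, coe_insert, SimpleGraph.isClique_insert]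
    refine ⟨fun h1 a ha => ?_, fun h1 => ⟨fun a ha => ?_, fun a ha b hb hab => ?_, fun a ha _ => ?_⟩⟩
    · have := mem_erase.1 (h1.1 ha)
      exact mem_filter.2 ⟨this.2, h1.2.2 a ha this.1.symm⟩
    · exact mem_erase.2 ⟨(mem_filter.1 (h1 ha)).2.ne', (mem_filter.1 (h1 ha)).1⟩
    · exact h a (mem_filter.1 (h1 ha)).1 b (mem_filter.1 (h1 hb)).1 (mem_filter.1 (h1 ha)).2
        (mem_filter.1 (h1 hb)).2 hab
    · exact (mem_filter.1 (h1 ha)).2
  · rw [card_insert_of_notMem fun h1 => (mem_filter.1 (mem_powerset.1 hs h1)).2.ne rfl, pow_succ']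

lemma main {G : SimpleGraph V} (hG : Chordal G) {l : ℕ} (hK : G.CliqueFree (l + 3)) (n : ℕ) :
    ∀ S : Finset V, S.card = l + 1 + n → Conn G l S → ∃ a b : ℕ, ∀ z,
      P G S z = (1 + z) ^ l * (1 + (1 + a + b) * z + b * z ^ 2) := by
  induction n with
  | zero =>
    intro S hS h
    refine ⟨0, 0, fun z => ?_⟩
    rw [P, filter_true_of_mem, pow_sum, hS]
    · push_cast; ring
    intro s hs a ha b hb hab
    have h1 := mem_powerset.1 hs ha
    have h2 : S.filter (G.Adj a) = S.erase a := eq_of_subset_of_card_le (fun c hc =>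
      mem_erase.2 ⟨(mem_filter.1 hc).2.ne', (mem_filter.1 hc).1⟩) (by
        have := deg h (by omega) h1; rw [card_erase_of_mem h1]; omega)
    exact (mem_filter.1 (h2 ▸ mem_erase.2 ⟨hab.symm, mem_powerset.1 hs hb⟩)).2
  | succ n ih =>
    intro S hS h
    obtain ⟨v, hv, h1⟩ := dirac hG (S := S) (card_pos.1 (by omega))
    obtain ⟨a, b, h2⟩ := ih (S.erase v) (by rw [card_erase_of_mem hv]; omega) (conn_erase h h1)
    have h3 := deg h (by omega) hv
    have h4 : (S.filter (G.Adj v)).card < l + 2 := by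
      by_contra! h4
      obtain ⟨t, ht, h5⟩ := exists_subset_card_eq h4
      refine hK _ (SimpleGraph.IsNClique.insert (a := v) ⟨fun a ha b hb hab => ?_, h5⟩
        fun b hb => (mem_filter.1 (ht hb)).2)
      exact h1 a (mem_filter.1 (ht ha)).1 b (mem_filter.1 (ht hb)).1 (mem_filter.1 (ht ha)).2
        (mem_filter.1 (ht hb)).2 hab
    rcases h3.eq_or_lt with h5 | h5
    · exact ⟨a + 1, b, fun z => by rw [P_erase hv h1, h2, ← h5]; push_cast; ring⟩
    · exact ⟨a, b + 1, fun z => by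
        rw [P_erase hv h1, h2, show (S.filter (G.Adj v)).card = l + 1 by omega]; push_cast; ring⟩

theorem result (V : Type) [Fintype V] (G : SimpleGraph V) (l : ℕ) (_hl : 3 ≤ l)
    (hc : LConnected G l) (hG : Chordal G) (hK : G.CliqueFree (l + 3)) (z : ℂ)
    (hz : cliqueVal G z = 0) : z.im = 0 := by
  obtain ⟨n, hn⟩ := Nat.exists_eq_add_of_le hc.1
  obtain ⟨a, b, h⟩ := main hG hK n univ hn fun X hX a _ ha b _ hb => by
    have := (SimpleGraph.reachable_iff_reflTransGen _ _).1 ((hc.2 X hX).1 ⟨a, ha⟩ ⟨b, hb⟩)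
    exact ReflTransGen.lift (r := (G.induce {v | v ∉ X}).Adj) (fun x : {v | v ∉ X} => x.1)
      (fun x y h => ⟨h, mem_univ _, y.2⟩) _ _ this
  have h1 : cliqueVal G z = P G univ z := by
    rw [cliqueVal, P, ← sum_fiberwise_of_maps_to (t := range (Fintype.card V + 1)) (g := card)
      fun s _ => mem_range.2 (Nat.lt_succ_of_le (card_le_univ s))]
    refine sum_congr rfl fun k _ => ?_
    rw [sum_congr rfl fun s hs => by rw [(mem_filter.1 hs).2], sum_const, nsmul_eq_mul]
    congr 3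
    ext s; simp [SimpleGraph.isNClique_iff]
  rw [h1, h, mul_eq_zero] at hz
  rcases hz with hz | hz
  · simpa using congrArg Complex.im (eq_zero_of_pow_eq_zero hz)
  by_contra h2
  have h3 := congrArg Complex.re hz
  have h4 := congrArg Complex.im hz
  simp [pow_two] at h3 h4
  have h5 : (1 + a + b : ℝ) + 2 * b * z.re = 0 := mul_left_cancel₀ h2 (by linarith)
  have h6 : 1 = b * (z.re ^ 2 + z.im ^ 2) := by linear_combination h3 - z.re * h5
  have ha : (0 : ℝ) ≤ a := by positivity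
  have hb : (0 : ℝ) < b := by
    rcases b with _ | b
    · simp at h6
    · positivity
  have h7 : (1 + a + b : ℝ) ^ 2 = 4 * b - 4 * b ^ 2 * z.im ^ 2 := by
    linear_combination (1 + a + b - 2 * b * z.re) * h5 - 4 * b * h6
  nlinarith [sq_nonneg (b - 1 : ℝ), mul_pos (pow_pos hb 2) (sq_pos_of_ne_zero h2),
    mul_nonneg ha ha, mul_nonneg ha hb.le]

end Pool.Agent.Results.MP_77abd0_co.RealRoots
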